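import Mathlib

/-!
Generic lemmas for the local bounds of determinants (projects J23, HF on MP_ef6a16_nt):
convexity of `s (s - 1) / 2` over classes, sums of distinct naturals.
-/

namespace H89MM

open Finset

lemma two_consec (t : ℤ) : 0 ≤ t * (t - 1) := by
  rcases le_or_gt t 0 with h | h
  · nlinarith
  · have : 1 ≤ t := h
    nlinarith

/-- the tangent inequality of `s (s - 1) / 2` at the integer `L` (doubled) -/
lemma conv_step (s L : ℤ) : 2 * L * s - L * (L + 1) ≤ s * (s - 1) := by
  have := two_consec (s - L)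
  nlinarith

/-- `Σ_{i < n} ⌊i / q⌋` in closed form (doubled) -/
theorem floor_sum (q n : ℕ) (hq : 0 < q) :
    2 * ∑ i ∈ range n, ((i / q : ℕ) : ℤ) =
      2 * ((n / q : ℕ) : ℤ) * n - q * (((n / q : ℕ) : ℤ) * (((n / q : ℕ) : ℤ) + 1)) := by
  induction n with
  | zero => simp
  | succ n ih =>
    rw [sum_range_succ, mul_add, ih]
    have hle : n / q ≤ (n + 1) / q := Nat.div_le_div_right (Nat.le_succ n)
    rcases Nat.succ_div (a := n) (b := q) with h
    by_cases hd : q ∣ n + 1
    · rw [if_pos hd] at h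
      obtain ⟨c, hc⟩ := hd
      have h1 : (n + 1) / q = c := by rw [hc, Nat.mul_div_cancel_left _ hq]
      have h2 : n / q + 1 = c := by rw [← h1]; exact h.symm
      have h3 : ((n / q : ℕ) : ℤ) = (c : ℤ) - 1 := by
        have : (((n / q : ℕ) + 1 : ℕ) : ℤ) = (c : ℤ) := by exact_mod_cast h2
        push_cast at this
        push_cast
        linarith
      have h4 : (n : ℤ) = q * c - 1 := by
        have : ((n + 1 : ℕ) : ℤ) = ((q * c : ℕ) : ℤ) := by exact_mod_cast hc
        push_cast at this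
        linarith
      rw [h1, h3]
      push_cast
      rw [h4]
      ring
    · rw [if_neg hd, add_zero] at h
      rw [h]
      push_cast
      ring

/-- convexity: `Σ_C s_C (s_C - 1) / 2 ≥ Σ_{i < n} ⌊i / q⌋` for at most `q` classes of total `n` -/
theorem conv_bound {κ : Type*} (I : Finset κ) (s : κ → ℤ) (q n : ℕ) (hq : 0 < q)
    (hI : I.card ≤ q) (hs : ∑ C ∈ I, s C = n) :
    2 * ∑ i ∈ range n, ((i / q : ℕ) : ℤ) ≤ ∑ C ∈ I, s C * (s C - 1) := by
  rw [floor_sum q n hq]
  set L : ℤ := ((n / q : ℕ) : ℤ) with hL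
  have hL0 : 0 ≤ L := by rw [hL]; positivity
  have h1 : ∑ C ∈ I, (2 * L * s C - L * (L + 1)) ≤ ∑ C ∈ I, s C * (s C - 1) :=
    sum_le_sum fun C _ => conv_step (s C) L
  rw [sum_sub_distrib, ← mul_sum, hs, sum_const, nsmul_eq_mul] at h1
  have h2 : (I.card : ℤ) * (L * (L + 1)) ≤ q * (L * (L + 1)) :=
    mul_le_mul_of_nonneg_right (by exact_mod_cast hI) (by positivity)
  linarith

/-- a finite set of naturals has sum at least `0 + 1 + .. + (card - 1)` -/
theorem sum_range_card_le (s : Finset ℕ) : ∑ i ∈ range s.card, i ≤ ∑ k ∈ s, k := by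
  induction s using Finset.induction_on_max with
  | empty => simp
  | insert a s hs ih =>
    have ha : a ∉ s := fun h => lt_irrefl a (hs a h)
    rw [card_insert_of_notMem ha, sum_range_succ, sum_insert ha, add_comm]
    apply add_le_add _ ih
    have : s ⊆ range a := fun x hx => mem_range.2 (hs x hx)
    simpa using card_le_card this

/-- doubled form -/
theorem card_mul_pred_le (s : Finset ℕ) :
    (s.card : ℤ) * ((s.card : ℤ) - 1) ≤ 2 * ∑ k ∈ s, (k : ℤ) := by
  have h1 : ((∑ i ∈ range s.card, i : ℕ) : ℤ) ≤ ((∑ k ∈ s, k : ℕ) : ℤ) := by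
    exact_mod_cast sum_range_card_le s
  have h2 := Finset.sum_range_id_mul_two s.card
  have h3 : (s.card : ℤ) * ((s.card : ℤ) - 1) = ((s.card * (s.card - 1) : ℕ) : ℤ) := by
    rcases Nat.eq_zero_or_pos s.card with h | h
    · rw [h]; simp
    · push_cast [Nat.cast_sub (show 1 ≤ s.card from h)]
      ring
  rw [h3, ← h2]
  push_cast at h1 ⊢
  linarith

/-- the same for an injective choice of naturals -/
theorem card_mul_pred_le_of_inj {ι : Type*} (J : Finset ι) (k : ι → ℕ)
    (hk : Set.InjOn k (J : Set ι)) :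
    (J.card : ℤ) * ((J.card : ℤ) - 1) ≤ 2 * ∑ r ∈ J, (k r : ℤ) := by
  classical
  have h1 := card_mul_pred_le (J.image k)
  rw [card_image_of_injOn hk, sum_image hk] at h1
  exact h1

/-- absorbing the shift `e` -/
lemma shift_step (s e : ℤ) : (s + e) * (s + e - 1) - e * (e - 1) = s * (s - 1) + 2 * (e * s) := by
  ring

/-- THE LOCAL BOUND (combinatorial part, doubled).  Every row `r` has a class `c r` (at most `q`
classes), a type `τ r` (`true` = second block of columns) and an exponent `k r`; `(c, τ, k)` is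
injective.  The second block has an extra valuation `e C` in the class `C`, of total `E`. -/
theorem class_bound2 {ι κ : Type*} [Fintype ι] [Fintype κ] [DecidableEq κ] (q : ℕ) (hq : 0 < q)
    (hκ : Fintype.card κ ≤ q) (e : κ → ℤ)
    (c : ι → κ) (τ : ι → Bool) (k : ι → ℕ)
    (hinj : Function.Injective fun r => (c r, τ r, k r)) (n₁ n₂ : ℕ) (E : ℤ)
    (hE : ∑ C, e C = E) (h₁ : (univ.filter fun r => τ r = false).card = n₁)
    (h₂ : ((univ.filter fun r => τ r = true).card : ℤ) + E = n₂) :
    2 * ∑ i ∈ range n₁, ((i / q : ℕ) : ℤ) + 2 * ∑ i ∈ range n₂, ((i / q : ℕ) : ℤ) -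
        ∑ C, e C * (e C - 1) ≤
      2 * ∑ r, ((k r : ℤ) + if τ r then e (c r) else 0) := by
  -- the number of rows of a class and a type
  set J : κ → Bool → Finset ι := fun C b => univ.filter fun r => c r = C ∧ τ r = b with hJ
  have hinjJ : ∀ C b, Set.InjOn k (J C b : Set ι) := by
    intro C b r hr r' hr' hkk
    have h1 : c r = C ∧ τ r = b := by simpa [hJ] using hr
    have h2 : c r' = C ∧ τ r' = b := by simpa [hJ] using hr'
    exact hinj (by simp [h1.1, h1.2, h2.1, h2.2, hkk])
  have hsplit : ∀ (g : ι → ℤ) (b : Bool),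
      ∑ r ∈ univ.filter (fun r => τ r = b), g r = ∑ C, ∑ r ∈ J C b, g r := by
    intro g b
    rw [← sum_fiberwise (univ.filter fun r => τ r = b) c g]
    refine sum_congr rfl fun C _ => sum_congr ?_ fun _ _ => rfl
    ext r
    simp only [hJ, mem_filter, mem_univ, true_and]
    tauto
  have hcard : ∀ b, ∑ C, ((J C b).card : ℤ) = ((univ.filter fun r => τ r = b).card : ℤ) := by
    intro b
    have := hsplit (fun _ => 1) b
    simp only [sum_const, nsmul_eq_mul, mul_one] at this
    exact this.symm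
  have htot : ∑ r, ((k r : ℤ) + if τ r then e (c r) else 0) =
      (∑ C, ∑ r ∈ J C false, (k r : ℤ)) +
        ∑ C, (∑ r ∈ J C true, (k r : ℤ) + e C * ((J C true).card : ℤ)) := by
    rw [← sum_filter_add_sum_filter_not univ (fun r => τ r = false)]
    have e1 : ∑ r ∈ univ.filter (fun r => τ r = false), ((k r : ℤ) + if τ r then e (c r) else 0) =
        ∑ C, ∑ r ∈ J C false, (k r : ℤ) := by
      rw [← hsplit (fun r => (k r : ℤ)) false]
      refine sum_congr rfl fun r hr => ?_
      rw [(mem_filter.1 hr).2]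
      simp
    have e2 : ∑ r ∈ univ.filter (fun r => ¬ τ r = false),
        ((k r : ℤ) + if τ r then e (c r) else 0) =
        ∑ C, (∑ r ∈ J C true, (k r : ℤ) + e C * ((J C true).card : ℤ)) := by
      have e3 : (univ.filter fun r => ¬ τ r = false) = univ.filter fun r => τ r = true := by
        ext r
        simp
      rw [e3, hsplit (fun r => (k r : ℤ) + if τ r then e (c r) else 0) true]
      refine sum_congr rfl fun C _ => ?_
      have e4 : ∀ r ∈ J C true, ((k r : ℤ) + if τ r then e (c r) else 0) = (k r : ℤ) + e C := by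
        intro r hr
        have h1 : c r = C ∧ τ r = true := by simpa [hJ] using hr
        rw [h1.1, h1.2]
        simp
      rw [sum_congr rfl e4, sum_add_distrib, sum_const, nsmul_eq_mul, mul_comm (e C)]
    rw [e1, e2]
  have hA : 2 * ∑ i ∈ range n₁, ((i / q : ℕ) : ℤ) ≤
      ∑ C, ((J C false).card : ℤ) * (((J C false).card : ℤ) - 1) := by
    apply conv_bound univ (fun C => ((J C false).card : ℤ)) q n₁ hq (by rwa [card_univ])
    rw [hcard false, h₁]
  have hB : 2 * ∑ i ∈ range n₂, ((i / q : ℕ) : ℤ) ≤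
      ∑ C, (((J C true).card : ℤ) + e C) * (((J C true).card : ℤ) + e C - 1) := by
    apply conv_bound univ (fun C => ((J C true).card : ℤ) + e C) q n₂ hq (by rwa [card_univ])
    rw [sum_add_distrib, hcard true, hE, h₂]
  have hA' : ∑ C, ((J C false).card : ℤ) * (((J C false).card : ℤ) - 1) ≤
      2 * ∑ C, ∑ r ∈ J C false, (k r : ℤ) := by
    rw [mul_sum]
    exact sum_le_sum fun C _ => card_mul_pred_le_of_inj _ k (hinjJ C false)
  have hB' : ∑ C, (((J C true).card : ℤ) + e C) * (((J C true).card : ℤ) + e C - 1) -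
      ∑ C, e C * (e C - 1) ≤
      2 * ∑ C, (∑ r ∈ J C true, (k r : ℤ) + e C * ((J C true).card : ℤ)) := by
    rw [mul_sum, ← sum_sub_distrib]
    refine sum_le_sum fun C _ => ?_
    rw [shift_step]
    have := card_mul_pred_le_of_inj (J C true) k (hinjJ C true)
    linarith
  rw [htot]
  linarith

/-- the same for `e C ∈ {-1, 0, 1}` -/
theorem class_bound {ι κ : Type*} [Fintype ι] [Fintype κ] [DecidableEq κ] (q : ℕ) (hq : 0 < q)
    (hκ : Fintype.card κ ≤ q) (e : κ → ℤ) (he : ∀ C, e C = -1 ∨ e C = 0 ∨ e C = 1)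
    (c : ι → κ) (τ : ι → Bool) (k : ι → ℕ)
    (hinj : Function.Injective fun r => (c r, τ r, k r)) (n₁ n₂ : ℕ) (E : ℤ)
    (hE : ∑ C, e C = E) (h₁ : (univ.filter fun r => τ r = false).card = n₁)
    (h₂ : ((univ.filter fun r => τ r = true).card : ℤ) + E = n₂) :
    ∑ i ∈ range n₁, ((i / q : ℕ) : ℤ) + ∑ i ∈ range n₂, ((i / q : ℕ) : ℤ) -
        ((univ.filter fun C => e C = -1).card : ℤ) ≤
      ∑ r, ((k r : ℤ) + if τ r then e (c r) else 0) := by
  have h := class_bound2 q hq hκ e c τ k hinj n₁ n₂ E hE h₁ h₂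
  have e1 : ∑ C, e C * (e C - 1) = 2 * ((univ.filter fun C => e C = -1).card : ℤ) := by
    rw [card_filter]
    push_cast
    rw [mul_sum]
    refine sum_congr rfl fun C _ => ?_
    rcases he C with h | h | h <;> rw [h] <;> norm_num
  rw [e1] at h
  linarith

end H89MM
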