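import Mathlib

/-!
Taylor coefficients of falling factorials (projects J23, HF on MP_ef6a16_nt):
`q ^ (Σ_{l=1}^L (⌊i / q^l⌋ - j))` divides the coefficient of `y^j` of `∏_{t<i} (y + a - t)`.
-/

namespace H89MM

open Finset Polynomial

/-- among `i` consecutive integers at least `⌊i / Q⌋` are multiples of `Q` -/
theorem card_mult_ge (Q i : ℕ) (hQ : 0 < Q) (a : ℤ) :
    i / Q ≤ ((range i).filter fun t : ℕ => (Q : ℤ) ∣ a - t).card := by
  have hQ' : (Q : ℤ) ≠ 0 := by exact_mod_cast hQ.ne'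
  set s : ℕ := (a % (Q : ℤ)).toNat with hs
  have hs0 : 0 ≤ a % (Q : ℤ) := Int.emod_nonneg a hQ'
  have hs1 : a % (Q : ℤ) < Q := Int.emod_lt_of_pos a (by exact_mod_cast hQ)
  have hsc : (s : ℤ) = a % (Q : ℤ) := by rw [hs, Int.toNat_of_nonneg hs0]
  have hsQ : s < Q := by omega
  rw [← card_range (i / Q)]
  apply card_le_card_of_injOn (fun k => k * Q + s)
  · intro k hk
    have hk' : k < i / Q := by simpa using hk
    have h1 : (k + 1) * Q ≤ i := by
      calc (k + 1) * Q ≤ (i / Q) * Q := Nat.mul_le_mul_right _ hk'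
        _ ≤ i := Nat.div_mul_le_self i Q
    simp only [coe_filter, mem_range, Set.mem_setOf_eq]
    refine ⟨by nlinarith, ?_⟩
    have h2 : a - ((k * Q + s : ℕ) : ℤ) = (a - a % (Q : ℤ)) - k * Q := by
      push_cast
      rw [hsc]
      ring
    rw [h2]
    exact dvd_sub (Int.dvd_self_sub_emod) (Dvd.intro_left _ rfl)
  · intro k hk k' hk' h
    simp only at h
    have : k * Q = k' * Q := by omega
    exact Nat.eq_of_mul_eq_mul_right hQ this

/-- `q ^ #{l ≤ L : q ^ l ∣ x} ∣ x` -/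
theorem pow_card_dvd (q L : ℕ) (x : ℤ) :
    (q : ℤ) ^ ((Icc 1 L).filter fun l => (q : ℤ) ^ l ∣ x).card ∣ x := by
  set s := (Icc 1 L).filter fun l => (q : ℤ) ^ l ∣ x with hs
  rcases s.eq_empty_or_nonempty with h | h
  · rw [h, card_empty, pow_zero]
    exact one_dvd _
  · have h1 := s.max'_mem h
    have h2 : (q : ℤ) ^ (s.max' h) ∣ x := (mem_filter.1 h1).2
    refine dvd_trans (pow_dvd_pow _ ?_) h2
    have h3 : s ⊆ Icc 1 (s.max' h) := by
      intro l hl
      rw [mem_Icc]
      exact ⟨(mem_Icc.1 (mem_filter.1 hl).1).1, s.le_max' l hl⟩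
    simpa using card_le_card h3

/-- a product over a subset of `i` consecutive integers, `j` of them missing -/
theorem pow_dvd_prod (q i j L : ℕ) (hq : 0 < q) (a : ℤ) (s : Finset ℕ) (hs : s ⊆ range i)
    (hc : i ≤ s.card + j) :
    (q : ℤ) ^ (∑ l ∈ Icc 1 L, (i / q ^ l - j)) ∣ ∏ t ∈ s, (a - t) := by
  have h1 : (q : ℤ) ^ (∑ t ∈ s, ((Icc 1 L).filter fun l => (q : ℤ) ^ l ∣ a - t).card) ∣
      ∏ t ∈ s, (a - t) := by
    rw [← prod_pow_eq_pow_sum]
    exact prod_dvd_prod_of_dvd _ _ fun t _ => pow_card_dvd q L _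
  refine dvd_trans (pow_dvd_pow _ ?_) h1
  have h2 : ∑ t ∈ s, ((Icc 1 L).filter fun l => (q : ℤ) ^ l ∣ a - t).card =
      ∑ l ∈ Icc 1 L, (s.filter fun t : ℕ => (q : ℤ) ^ l ∣ a - t).card := by
    simp only [card_filter]
    rw [sum_comm]
  rw [h2]
  refine sum_le_sum fun l _ => ?_
  have hql : 0 < q ^ l := pow_pos hq l
  have h3 := card_mult_ge (q ^ l) i hql a
  have h4 : ((range i).filter fun t : ℕ => ((q ^ l : ℕ) : ℤ) ∣ a - t).card ≤
      (s.filter fun t : ℕ => (q : ℤ) ^ l ∣ a - t).card + (range i \ s).card := by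
    rw [← card_union_of_disjoint]
    · apply card_le_card
      intro t ht
      rw [mem_filter] at ht
      rw [mem_union, mem_filter, mem_sdiff]
      have h5 : (q : ℤ) ^ l ∣ a - t := by
        have := ht.2
        push_cast at this
        exact this
      by_cases hts : t ∈ s
      · exact Or.inl ⟨hts, h5⟩
      · exact Or.inr ⟨ht.1, hts⟩
    · rw [disjoint_left]
      intro t ht ht'
      exact (mem_sdiff.1 ht').2 (mem_filter.1 ht).1
  have h5 : (range i \ s).card ≤ j := by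
    have := card_sdiff_add_card_eq_card hs
    rw [card_range] at this
    omega
  omega

/-- the polynomial `∏_{t<i} (X + (a - t))`, the falling factorial `b_i` at `a + X` -/
noncomputable def fall (i : ℕ) (a : ℤ) : ℤ[X] := ∏ t ∈ range i, (X + C (a - t))

theorem fall_coeff_dvd (q i j L : ℕ) (hq : 0 < q) (a : ℤ) :
    (q : ℤ) ^ (∑ l ∈ Icc 1 L, (i / q ^ l - j)) ∣ (fall i a).coeff j := by
  unfold fall
  rcases Nat.lt_or_ge i j with h | h
  · have : (∏ t ∈ range i, (X + C (a - (t : ℤ)))).coeff j = 0 := by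
      apply coeff_eq_zero_of_natDegree_lt
      refine lt_of_le_of_lt (natDegree_prod_le _ _) ?_
      refine lt_of_le_of_lt (sum_le_sum fun t _ => (natDegree_X_add_C (a - (t : ℤ))).le) ?_
      simpa using h
    rw [this]
    exact dvd_zero _
  · rw [Finset.prod_X_add_C_coeff (range i) (fun t => a - (t : ℤ)) (by rwa [card_range])]
    refine dvd_sum fun s hs => ?_
    rw [mem_powersetCard, card_range] at hs
    exact pow_dvd_prod q i j L hq a s hs.1 (by omega)

/-- the same after multiplication by an integral polynomial -/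
theorem mul_fall_coeff_dvd (q i j L : ℕ) (hq : 0 < q) (a : ℤ) (P : ℤ[X]) :
    (q : ℤ) ^ (∑ l ∈ Icc 1 L, (i / q ^ l - j)) ∣ (P * fall i a).coeff j := by
  rw [coeff_mul]
  refine dvd_sum fun x hx => ?_
  have hx' : x.1 + x.2 = j := by simpa using hx
  refine dvd_mul_of_dvd_right (dvd_trans (pow_dvd_pow _ ?_) (fall_coeff_dvd q i x.2 L hq a)) _
  exact sum_le_sum fun l _ => by omega

/-- the same after multiplication by an integral power series -/
theorem mul_fall_coeff_dvd' (q i j L : ℕ) (hq : 0 < q) (a : ℤ) (P : PowerSeries ℤ) :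
    (q : ℤ) ^ (∑ l ∈ Icc 1 L, (i / q ^ l - j)) ∣
      PowerSeries.coeff j (P * (fall i a : PowerSeries ℤ)) := by
  rw [PowerSeries.coeff_mul]
  refine dvd_sum fun x hx => ?_
  have hx' : x.1 + x.2 = j := by simpa using hx
  rw [Polynomial.coeff_coe]
  refine dvd_mul_of_dvd_right (dvd_trans (pow_dvd_pow _ ?_) (fall_coeff_dvd q i x.2 L hq a)) _
  exact sum_le_sum fun l _ => by omega

/-- the exponent is at least `v_q(i!) - L j` -/
theorem sum_div_sub_ge (q i j L : ℕ) :
    (∑ l ∈ Icc 1 L, i / q ^ l) ≤ (∑ l ∈ Icc 1 L, (i / q ^ l - j)) + L * j := by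
  have h1 : ∑ l ∈ Icc 1 L, i / q ^ l ≤ ∑ l ∈ Icc 1 L, ((i / q ^ l - j) + j) :=
    sum_le_sum fun l _ => by omega
  rw [sum_add_distrib, sum_const, Nat.card_Icc, smul_eq_mul] at h1
  simpa using h1

end H89MM
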