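import Mathlib

/-!
Clearing denominators in the rows of a node (projects J23, HF on MP_ef6a16_nt): the rows `(node,
jet)` of a matrix of Taylor coefficients are multiplied by the Toeplitz matrix of `den_node`.
-/

namespace H89MM

open Finset

variable {R : Type*} [CommRing R] {ρ α : Type*} [DecidableEq α]

/-- the Toeplitz matrix of the series `den`, one block for every node -/
noncomputable def toep (node : ρ → α) (jet : ρ → ℕ) (den : α → PowerSeries R) : Matrix ρ ρ R := fun r r' =>
  if node r = node r' ∧ jet r' ≤ jet r then
    PowerSeries.coeff (jet r - jet r') (den (node r)) else 0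

theorem toep_det [Fintype ρ] [DecidableEq ρ] (node : ρ → α) (jet : ρ → ℕ)
    (hinj : Function.Injective fun r => (node r, jet r)) (den : α → PowerSeries R) :
    (toep node jet den).det = ∏ r, PowerSeries.coeff 0 (den (node r)) := by
  rw [← Matrix.det_transpose]
  have htri : (toep node jet den).transpose.BlockTriangular jet := by
    intro i j hij
    show toep node jet den j i = 0
    unfold toep
    rw [if_neg]
    rintro ⟨-, h⟩
    omega
  rw [htri.det]
  have hblock : ∀ a, ((toep node jet den).transpose.toSquareBlock jet a).det =
      ∏ r ∈ univ.filter (fun r => jet r = a), PowerSeries.coeff 0 (den (node r)) := by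
    intro a
    have e1 : (toep node jet den).transpose.toSquareBlock jet a =
        Matrix.diagonal fun r : {r // jet r = a} => PowerSeries.coeff 0 (den (node r)) := by
      ext r r'
      rw [Matrix.toSquareBlock_def]
      show toep node jet den r' r = _
      unfold toep
      by_cases h : r = r'
      · subst h
        rw [Matrix.diagonal_apply_eq, if_pos ⟨rfl, le_refl _⟩, Nat.sub_self]
      · rw [Matrix.diagonal_apply_ne _ h, if_neg]
        rintro ⟨h1, -⟩
        apply h
        apply Subtype.ext
        exact hinj (Prod.ext h1.symm (r.2.trans r'.2.symm))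
    rw [e1, Matrix.det_diagonal]
    rw [prod_subtype (univ.filter fun r => jet r = a) (p := fun r => jet r = a)
      (fun r => by simp) (fun r => PowerSeries.coeff 0 (den (node r)))]
  rw [prod_congr rfl fun a _ => hblock a]
  rw [← prod_fiberwise_of_maps_to (s := univ) (t := univ.image jet) (g := jet)
    (fun r _ => mem_image_of_mem _ (mem_univ r)) (fun r => PowerSeries.coeff 0 (den (node r)))]

theorem toep_mul_apply [Fintype ρ] {γ : Type*} (node : ρ → α) (jet : ρ → ℕ)
    (hinj : Function.Injective fun r => (node r, jet r)) (den : α → PowerSeries R)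
    (hcomp : ∀ r k, k < jet r → (∃ r', node r' = node r ∧ jet r' = k) ∨
      PowerSeries.coeff (jet r - k) (den (node r)) = 0)
    (G : α → γ → PowerSeries R) (M : Matrix ρ γ R)
    (hM : ∀ r c, M r c = PowerSeries.coeff (jet r) (G (node r) c)) (r : ρ) (c : γ) :
    (toep node jet den * M) r c = PowerSeries.coeff (jet r) (den (node r) * G (node r) c) := by
  classical
  rw [Matrix.mul_apply, PowerSeries.coeff_mul,
    Finset.Nat.sum_antidiagonal_eq_sum_range_succ
      (fun i j => PowerSeries.coeff i (den (node r)) * PowerSeries.coeff j (G (node r) c)),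
    ← sum_range_reflect]
  have e0 : ∀ k ∈ range (jet r + 1),
      PowerSeries.coeff (jet r + 1 - 1 - k) (den (node r)) *
        PowerSeries.coeff (jet r - (jet r + 1 - 1 - k)) (G (node r) c) =
      PowerSeries.coeff (jet r - k) (den (node r)) * PowerSeries.coeff k (G (node r) c) := by
    intro k hk
    rw [mem_range] at hk
    have e1 : jet r + 1 - 1 - k = jet r - k := by omega
    have e2 : jet r - (jet r + 1 - 1 - k) = k := by omega
    rw [e2, e1]
  rw [sum_congr rfl e0]
  -- the rows of the node with small jets
  set J : Finset ρ := univ.filter fun r' => node r = node r' ∧ jet r' ≤ jet r with hJ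
  have h1 : ∑ r', toep node jet den r r' * M r' c =
      ∑ r' ∈ J, PowerSeries.coeff (jet r - jet r') (den (node r)) *
        PowerSeries.coeff (jet r') (G (node r) c) := by
    rw [hJ, sum_filter]
    refine sum_congr rfl fun r' _ => ?_
    unfold toep
    split_ifs with h
    · rw [hM, h.1]
    · rw [zero_mul]
  have hjinj : Set.InjOn jet (J : Set ρ) := by
    intro r₁ hr₁ r₂ hr₂ h
    have h3 : node r = node r₁ ∧ jet r₁ ≤ jet r := by simpa [hJ] using hr₁
    have h4 : node r = node r₂ ∧ jet r₂ ≤ jet r := by simpa [hJ] using hr₂
    exact hinj (Prod.ext (h3.1.symm.trans h4.1) h)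
  rw [h1, ← sum_image (f := fun k => PowerSeries.coeff (jet r - k) (den (node r)) *
    PowerSeries.coeff k (G (node r) c)) hjinj]
  apply sum_subset
  · intro k hk
    obtain ⟨r', hr', rfl⟩ := mem_image.1 hk
    have h3 : node r = node r' ∧ jet r' ≤ jet r := by simpa [hJ] using hr'
    rw [mem_range]
    omega
  · intro k hk hk'
    rw [mem_range] at hk
    have hrJ : r ∈ J := by simp [hJ]
    have hkr : k < jet r := by
      rcases Nat.lt_or_ge k (jet r) with h | h
      · exact h
      · exfalso
        have : k = jet r := by omega
        rw [this] at hk'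
        exact hk' (mem_image_of_mem _ hrJ)
    rcases hcomp r k hkr with ⟨r', h3, h4⟩ | h3
    · exfalso
      apply hk'
      rw [mem_image]
      refine ⟨r', ?_, h4⟩
      rw [hJ, mem_filter]
      exact ⟨mem_univ _, h3.symm, by omega⟩
    · rw [h3, zero_mul]

/-- THE CLEARED DETERMINANT.  The rows are pairs (node, jet) (an injective family); whenever
the coefficient of `den` is not zero, the smaller jet is present. -/
theorem det_toep_mul [Fintype ρ] [DecidableEq ρ] (node : ρ → α) (jet : ρ → ℕ)
    (hinj : Function.Injective fun r => (node r, jet r)) (den : α → PowerSeries R)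
    (hcomp : ∀ r k, k < jet r → (∃ r', node r' = node r ∧ jet r' = k) ∨
      PowerSeries.coeff (jet r - k) (den (node r)) = 0)
    (G : α → ρ → PowerSeries R) :
    (Matrix.of fun r c => PowerSeries.coeff (jet r) (den (node r) * G (node r) c)).det =
      (∏ r, PowerSeries.coeff 0 (den (node r))) *
        (Matrix.of fun r c => PowerSeries.coeff (jet r) (G (node r) c)).det := by
  rw [← toep_det node jet hinj den, ← Matrix.det_mul]
  congr 1
  ext r c
  exact (toep_mul_apply node jet hinj den hcomp G
    (Matrix.of fun r c => PowerSeries.coeff (jet r) (G (node r) c)) (fun _ _ => rfl) r c).symm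

end H89MM
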